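import Pool.Agent.MP_a77edb_an.HomDim
import Pool.Agent.MP_a77edb_an.Bridge
import Pool.Agent.MP_a77edb_an.Radical5

/-!
# Class (iv): commutative radical Banach algebras have `dg A > 1` and `db A > 1`
-/

set_option autoImplicit false

universe u

open Pool.Agent.MP_a77edb_an

/-- Every nonzero commutative radical Banach algebra `A` satisfies `dg A > 1` and `db A > 1`. -/
theorem Pool.Agent.Results.MP_a77edb_an.CommRadical.result :
    ∀ (A : Type u) [NonUnitalNormedCommRing A] [NormedSpace ℂ A] [IsScalarTower ℂ A A]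
      [SMulCommClass ℂ A A] [CompleteSpace A] [Nontrivial A],
      HomDim.IsRadicalAlgebra A → 1 < HomDim.dg A ∧ 1 < HomDim.db A := by
  intro A _ _ _ _ _ _ hA
  rw [dg_eq, db_eq]
  exact one_lt_dg_and_db hA
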