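import Pool.Agent.MP_a77edb_an.HomDim
import Pool.Agent.CptDim.Stm
import Pool.Agent.FinBlk.Soc

/-!
# Class (i): families of minimal idempotents; semiprime algebras with dense socle
-/

set_option autoImplicit false

universe u

open Pool.Agent.MP_a77edb_an Pool.Agent.CptDim Pool.Agent.FinBlk

/-- Part 1: let `e k` be minimal idempotents of the complex Banach algebra `A` with
`e k A e l = 0` for `k ≠ l`, such that the bounded functionals on every `A e_k` are given by
elements of `A`, `e_k A → (A e_k)*` is injective if `A e_k` is finite-dimensional, and the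
elements `b` which act as a scalar `t` plus a compact operator on every `A e_k` and as `t` on all
but finitely many `A e_k` are dense. If there are infinitely many `k` or some `A e_k` is
infinite-dimensional, then `dg A > 1` and `db A > 1`.

Part 2: let `A` be an infinite-dimensional semiprime Banach algebra with dense socle such that the
bounded functionals on every infinite-dimensional minimal left ideal `A e` are given by elements of
`A`. Then `dg A > 1` and `db A > 1`. -/
theorem Pool.Agent.Results.MP_a77edb_an.DenseSocle.result :
    (∀ (A κ : Type u) [NonUnitalNormedRing A] [NormedSpace ℂ A] [IsScalarTower ℂ A A]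
      [SMulCommClass ℂ A A] [CompleteSpace A] (e : κ → A), (∀ k, MinIdem (e k)) →
      (∀ k l, k ≠ l → ∀ a : A, e k * a * e l = 0) → (∀ k, GivesFunctionals (e k)) →
      (∀ k, FiniteDimensional ℂ (lid (e k)) → Faithful (e k)) →
      (Infinite κ ∨ ∃ k, ¬ FiniteDimensional ℂ (lid (e k))) → DenseScalar e →
      1 < HomDim.dg A ∧ 1 < HomDim.db A) ∧
    (∀ (A : Type u) [NonUnitalNormedRing A] [NormedSpace ℂ A] [IsScalarTower ℂ A A]
      [SMulCommClass ℂ A A] [CompleteSpace A], Semiprime A → Dense (socle A : Set A) →
      ¬ FiniteDimensional ℂ A →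
      (∀ e : A, MinIdem e → ¬ FiniteDimensional ℂ (lid e) → GivesFunctionals e) →
      1 < HomDim.dg A ∧ 1 < HomDim.db A) := by
  refine ⟨?_, ?_⟩
  · intro A κ _ _ _ _ _ e hmin horth hfun hinj hinf hd
    have h : ¬ Vanish A := int_main e hmin horth hfun hinj hinf hd
    rw [dg_eq, db_eq]
    exact ⟨not_le.1 fun h' => h (vanish_of_dg h'), not_le.1 fun h' => h (vanish_of_db h')⟩
  · intro A _ _ _ _ _ hA hs hinf hfun
    have h : ¬ Vanish A := soc_main hA hs hinf hfun
    rw [dg_eq, db_eq]
    exact ⟨not_le.1 fun h' => h (vanish_of_dg h'), not_le.1 fun h' => h (vanish_of_db h')⟩
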