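import Pool.Agent.MP_a77edb_an.HomDim
import Pool.Agent.MP_a77edb_an.TriMain

/-!
# Class (ii): an infinite-dimensional Banach algebra with involution with `dg A = db A = 1`
-/

set_option autoImplicit false

open Pool.Agent.MP_a77edb_an

/-- There is an infinite-dimensional (unital) Banach algebra with an (isometric) involution, with
`dg A = 1` and `db A = 1`. -/
theorem Pool.Agent.Results.MP_a77edb_an.InvolutiveDimOne.result :
    ∃ (A : Type) (_ : NormedRing A) (_ : NormedAlgebra ℂ A) (_ : CompleteSpace A)
      (_ : StarRing A) (_ : StarModule ℂ A) (_ : NormedStarGroup A),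
      ¬ FiniteDimensional ℂ A ∧ HomDim.dg A = 1 ∧ HomDim.db A = 1 :=
  exists_star_algebra
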